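import Pool.Agent.Q191.SY.Sc

/-!
# The structure of the group of components of `Symp_ct(ℝ^{2n})`
-/

set_option autoImplicit false

open scoped ContDiff
open Set Topology Function Q170.SC

namespace Pool.Agent.Q191.SY

variable {n : ℕ}

/-- Up to smooth isotopy two elements commute. -/
theorem si_comm (f g : SympCt n) : SmoothIsotopic (f * g) (g * f) := by
  rcases Nat.eq_zero_or_pos n with rfl | hn
  · have h : f * g = g * f := ext_map fun z => Subsingleton.elim _ _
    rw [h]
    exact si_refl _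
  · obtain ⟨c, hd, -⟩ := exists_balls hn (0 : E n) (ρ := 1) one_pos
    obtain ⟨f', h1, h2, -⟩ := exists_in_ball f (0 : E n) (ρ := 1 / 4) (by norm_num)
    obtain ⟨g', k1, k2, -⟩ := exists_in_ball g c (ρ := 1 / 4) (by norm_num)
    have h3 := comm_of_disjoint hd h2 k2
    have h4 := si_mul h1 k1
    rw [h3] at h4
    exact si_trans h4 (si_symm (si_mul k1 h1))

/-- The derivatives of a product of elements with disjoint supports. -/
theorem deriv_mul {K L : Set (E n)} (hK : IsClosed K) (hL : IsClosed L) (hKL : Disjoint K L)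
    {f g : SympCt n} (hf : SuppIn K f.perm) (hg : SuppIn L g.perm) (z : E n) :
    fderiv ℝ (f * g).map z = fderiv ℝ f.map z ∨ fderiv ℝ (f * g).map z = fderiv ℝ g.map z := by
  by_cases hz : z ∈ L
  · right
    have h1 : g.map z ∉ K := fun h => Set.disjoint_left.1 hKL h (map_mem hg hz)
    have h2 : ∀ᶠ w in 𝓝 z, (f * g).map w = g.map w := by
      have h3 : ∀ᶠ w in 𝓝 z, g.map w ∈ Kᶜ :=
        (map_smooth g).continuous.continuousAt.eventually (hK.isOpen_compl.mem_nhds h1)
      filter_upwards [h3] with w hw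
      exact hf _ hw
    exact Filter.EventuallyEq.fderiv_eq h2
  · left
    have h2 : ∀ᶠ w in 𝓝 z, (f * g).map w = f.map w := by
      filter_upwards [hL.isOpen_compl.mem_nhds hz] with w hw
      have h3 : g.map w = w := hg _ hw
      rw [mul_map, h3]
    exact Filter.EventuallyEq.fderiv_eq h2

theorem deriv_inv (f : SympCt n) (z : E n) :
    fderiv ℝ f.map (f⁻¹.map z) * fderiv ℝ f⁻¹.map z = 1 ∧
      fderiv ℝ f⁻¹.map z * fderiv ℝ f.map (f⁻¹.map z) = 1 := by
  have d1 : HasFDerivAt f⁻¹.map (fderiv ℝ f⁻¹.map z) z := Q196.SL.hasD _ _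
  have d2 : HasFDerivAt f.map (fderiv ℝ f.map (f⁻¹.map z)) (f⁻¹.map z) := Q196.SL.hasD _ _
  have e1 := (d2.comp z d1).fderiv
  have e2 : f.map ∘ f⁻¹.map = id := funext fun w => map_inv_map _ w
  rw [e2, fderiv_id] at e1
  have d3 : HasFDerivAt f⁻¹.map (fderiv ℝ f⁻¹.map z) (f.map (f⁻¹.map z)) := by
    rw [map_inv_map]
    exact d1
  have e3 := (d3.comp (f⁻¹.map z) d2).fderiv
  have e4 : f⁻¹.map ∘ f.map = id := funext fun w => inv_map_map _ w
  rw [e4, fderiv_id] at e3
  exact ⟨e1.symm, e3.symm⟩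

/-- The classes of the elements with derivatives in `L`: products. -/
theorem class_mul (L : Set (E n →L[ℝ] E n)) (h1 : 1 ∈ L) {f g : SympCt n}
    (hf : ∀ z, fderiv ℝ f.map z ∈ L) (hg : ∀ z, fderiv ℝ g.map z ∈ L) :
    ∃ h, SmoothIsotopic (f * g) h ∧ ∀ z, fderiv ℝ h.map z ∈ L := by
  rcases Nat.eq_zero_or_pos n with rfl | hn
  · refine ⟨1, ?_, fun z => ?_⟩
    · have h : f * g = 1 := ext_map fun z => Subsingleton.elim _ _
      rw [h]
      exact si_refl _
    · have h : fderiv ℝ (1 : SympCt 0).map z = 1 := Subsingleton.elim _ _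
      rw [h]
      exact h1
  · obtain ⟨c, hd, -⟩ := exists_balls hn (0 : E n) (ρ := 1) one_pos
    obtain ⟨f', a1, a2, a3⟩ := exists_in_ball f (0 : E n) (ρ := 1 / 4) (by norm_num)
    obtain ⟨g', b1, b2, b3⟩ := exists_in_ball g c (ρ := 1 / 4) (by norm_num)
    refine ⟨f' * g', si_mul a1 b1, fun z => ?_⟩
    rcases deriv_mul Metric.isClosed_closedBall Metric.isClosed_closedBall hd a2 b2 z with h | h
    · rw [h]
      obtain ⟨w, hw⟩ := a3 z
      rw [hw]
      exact hf w
    · rw [h]
      obtain ⟨w, hw⟩ := b3 z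
      rw [hw]
      exact hg w

/-- The elements which are smoothly isotopic to an element with derivatives in `L`. -/
def sub (L : Set (E n →L[ℝ] E n)) (h1 : 1 ∈ L)
    (h2 : ∀ A ∈ L, ∀ B, A * B = 1 → B * A = 1 → B ∈ L) : Subgroup (SympCt n) where
  carrier := {f | ∃ h, SmoothIsotopic f h ∧ ∀ z, fderiv ℝ h.map z ∈ L}
  one_mem' := by
    refine ⟨1, si_refl 1, fun z => ?_⟩
    have h : fderiv ℝ (1 : SympCt n).map z = 1 := fderiv_id
    rw [h]
    exact h1
  mul_mem' := by
    rintro f g ⟨f', a1, a2⟩ ⟨g', b1, b2⟩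
    obtain ⟨h, c1, c2⟩ := class_mul L h1 a2 b2
    exact ⟨h, si_trans (si_mul a1 b1) c1, c2⟩
  inv_mem' := by
    rintro f ⟨g, a1, a2⟩
    refine ⟨g⁻¹, si_inv a1, fun z => ?_⟩
    obtain ⟨e1, e2⟩ := deriv_inv g z
    exact h2 _ (a2 _) _ e1 e2

/-- Any two elements differ, up to isotopy, only in a given ball, and by little. -/
theorem exists_near (f g : SympCt n) (B : Set (E n)) (hB : IsOpen B) (hne : B.Nonempty) {ε : ℝ}
    (hε : 0 < ε) : ∃ h, SmoothIsotopic f h ∧ (∀ z, z ∉ B → h.map z = g.map z) ∧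
      ∀ z, dist (h.map z) (g.map z) < ε ∧ dist (h⁻¹.map z) (g⁻¹.map z) < ε := by
  obtain ⟨b, hb⟩ := hne
  obtain ⟨r1, hr1, h1⟩ := Metric.isOpen_iff.1 hB b hb
  obtain ⟨r2, hr2, h2⟩ := Metric.continuousAt_iff.1
    ((map_smooth g).continuous.continuousAt (x := b)) (ε / 2) (by positivity)
  let ρ : ℝ := min (min (r1 / 2) (r2 / 2)) (ε / 4)
  have hρ : 0 < ρ := by positivity
  have e1 : ρ ≤ r1 / 2 := (min_le_left _ _).trans (min_le_left _ _)
  have e2 : ρ ≤ r2 / 2 := (min_le_left _ _).trans (min_le_right _ _)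
  have e3 : ρ ≤ ε / 4 := min_le_right _ _
  obtain ⟨k, k1, k2, -⟩ := exists_in_ball (g⁻¹ * f) b hρ
  have k3 : ∀ w, dist (k.map w) w ≤ ε / 2 := by
    intro w
    by_cases hw : w ∈ Metric.closedBall b ρ
    · have h3 := map_mem k2 hw
      have h4 : dist (k.map w) w ≤ dist (k.map w) b + dist b w := dist_triangle _ _ _
      rw [dist_comm b w] at h4
      rw [Metric.mem_closedBall] at h3 hw
      linarith
    · have h3 : k.map w = w := k2 w hw
      rw [h3, dist_self]
      positivity
  refine ⟨g * k, ?_, ?_, fun z => ⟨?_, ?_⟩⟩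
  · have h3 := si_mul (si_refl g) k1
    rwa [mul_inv_cancel_left] at h3
  · intro z hz
    have h3 : k.map z = z := k2 z fun h => hz (h1 ?_)
    · rw [mul_map, h3]
    · rw [Metric.mem_closedBall] at h
      rw [Metric.mem_ball]
      linarith
  · rw [mul_map]
    by_cases hz : z ∈ Metric.closedBall b ρ
    · have h3 := map_mem k2 hz
      rw [Metric.mem_closedBall] at h3 hz
      have h4 : dist (g.map (k.map z)) (g.map b) < ε / 2 := h2 (by linarith)
      have h5 : dist (g.map z) (g.map b) < ε / 2 := h2 (by linarith)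
      have h6 := dist_triangle_right (g.map (k.map z)) (g.map z) (g.map b)
      linarith
    · have h3 : k.map z = z := k2 z hz
      rw [h3, dist_self]
      exact hε
  · have h3 : (g * k)⁻¹.map z = k⁻¹.map (g⁻¹.map z) := by
      rw [mul_inv_rev, mul_map]
    rw [h3]
    have h4 := k3 (k⁻¹.map (g⁻¹.map z))
    rw [map_inv_map, dist_comm] at h4
    linarith

/-- Up to isotopy an element may be supported in a given open set and close to the identity, with
the same derivatives. -/
theorem exists_small (f : SympCt n) (B : Set (E n)) (hB : IsOpen B) (hne : B.Nonempty) {ε : ℝ}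
    (hε : 0 < ε) : ∃ h, SmoothIsotopic f h ∧ SuppIn B h.perm ∧
      (∀ z, dist (h.map z) z < ε ∧ dist (h⁻¹.map z) z < ε) ∧
      ∀ z, ∃ w, fderiv ℝ h.map z = fderiv ℝ f.map w := by
  obtain ⟨b, hb⟩ := hne
  obtain ⟨r1, hr1, h1⟩ := Metric.isOpen_iff.1 hB b hb
  let ρ : ℝ := min (r1 / 2) (ε / 4)
  have hρ : 0 < ρ := by positivity
  have e1 : ρ ≤ r1 / 2 := min_le_left _ _
  have e3 : ρ ≤ ε / 4 := min_le_right _ _
  obtain ⟨k, k1, k2, k4⟩ := exists_in_ball f b hρ
  have k3 : ∀ w, dist (k.map w) w < ε := by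
    intro w
    by_cases hw : w ∈ Metric.closedBall b ρ
    · have h3 := map_mem k2 hw
      have h4 : dist (k.map w) w ≤ dist (k.map w) b + dist b w := dist_triangle _ _ _
      rw [dist_comm b w] at h4
      rw [Metric.mem_closedBall] at h3 hw
      linarith
    · have h3 : k.map w = w := k2 w hw
      rw [h3, dist_self]
      exact hε
  refine ⟨k, k1, fun z hz => k2 z fun h => hz (h1 ?_), fun z => ⟨k3 z, ?_⟩, k4⟩
  · rw [Metric.mem_closedBall] at h
    rw [Metric.mem_ball]
    linarith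
  · have h4 := k3 (k⁻¹.map z)
    rwa [map_inv_map, dist_comm] at h4

/-! ### The identity component and characters -/

/-- the component of the identity -/
def G0 (n : ℕ) : Subgroup (SympCt n) where
  carrier := {f | SmoothIsotopic 1 f}
  one_mem' := si_refl 1
  mul_mem' := by
    intro f g hf hg
    have h := si_mul hf hg
    rwa [one_mul] at h
  inv_mem' := by
    intro f hf
    have h := si_inv hf
    rwa [inv_one] at h

theorem mem_G0 (f : SympCt n) : f ∈ G0 n ↔ SmoothIsotopic 1 f := Iff.rfl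

theorem si_iff (f g : SympCt n) : SmoothIsotopic f g ↔ f⁻¹ * g ∈ G0 n := by
  rw [mem_G0]
  constructor
  · intro h
    have h1 := si_mul (si_refl f⁻¹) h
    rwa [inv_mul_cancel] at h1
  · intro h
    have h1 := si_mul (si_refl f) h
    rwa [mul_one, mul_inv_cancel_left] at h1

theorem comm_mem (f g : SympCt n) : (f * g)⁻¹ * (g * f) ∈ G0 n := (si_iff _ _).1 (si_comm f g)

instance normal_G0 (n : ℕ) : (G0 n).Normal where
  conj_mem f hf g := by
    have h1 : SmoothIsotopic (g * 1 * g⁻¹) (g * f * g⁻¹) :=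
      si_mul (si_mul (si_refl g) hf) (si_refl g⁻¹)
    rw [mul_one, mul_inv_cancel] at h1
    exact h1

noncomputable instance commG (n : ℕ) : CommGroup (SympCt n ⧸ G0 n) :=
  { (inferInstance : Group (SympCt n ⧸ G0 n)) with
    mul_comm := by
      intro a b
      obtain ⟨f, rfl⟩ := QuotientGroup.mk_surjective a
      obtain ⟨g, rfl⟩ := QuotientGroup.mk_surjective b
      rw [← QuotientGroup.mk_mul, ← QuotientGroup.mk_mul, QuotientGroup.eq]
      exact comm_mem f g }

theorem countable_quot (n : ℕ) : Countable (SympCt n ⧸ G0 n) := by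
  obtain ⟨S, hS, h⟩ := exists_countable (n := n)
  have : Countable S := hS
  have hs : Surjective (fun s : S => (QuotientGroup.mk s.1 : SympCt n ⧸ G0 n)) := by
    intro q
    obtain ⟨f, rfl⟩ := QuotientGroup.mk_surjective q
    obtain ⟨s, hs, h1⟩ := h f
    refine ⟨⟨s, hs⟩, ?_⟩
    rw [QuotientGroup.eq]
    exact (si_iff _ _).1 h1
  exact hs.countable

/-- A locally constant map is constant on the smooth isotopy classes. -/
theorem eq_of_si {Y : Type*} {χ : SympCt n → Y} (hχ : IsLocallyConstant χ) {f g : SympCt n}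
    (h : SmoothIsotopic f g) : χ f = χ g := by
  have h1 := h.joined
  have h2 : IsLocallyConstant (χ ∘ h1.somePath) := hχ.comp_continuous h1.somePath.continuous
  have h3 := h2.apply_eq_of_preconnectedSpace 0 1
  simpa using h3

/-- Elements in different components are separated by a locally constant character. -/
theorem exists_char {f g : SympCt n} (h : ¬ SmoothIsotopic f g) :
    ∃ χ : SympCt n →* Multiplicative (AddCircle (1 : ℚ)), IsLocallyConstant χ ∧ χ f ≠ χ g := by
  have h1 : (QuotientGroup.mk (f⁻¹ * g) : SympCt n ⧸ G0 n) ≠ 1 := by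
    rw [Ne, QuotientGroup.eq_one_iff]
    exact fun h2 => h ((si_iff _ _).2 h2)
  have h2 : Additive.ofMul (QuotientGroup.mk (f⁻¹ * g) : SympCt n ⧸ G0 n) ≠ 0 := h1
  obtain ⟨c, hc⟩ := CharacterModule.exists_character_apply_ne_zero_of_ne_zero h2
  let c' : (SympCt n ⧸ G0 n) →* Multiplicative (AddCircle (1 : ℚ)) :=
    AddMonoidHom.toMultiplicativeRight (c : Additive (SympCt n ⧸ G0 n) →+ AddCircle (1 : ℚ))
  let χ : SympCt n →* Multiplicative (AddCircle (1 : ℚ)) := c'.comp (QuotientGroup.mk' (G0 n))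
  have hχ : ∀ k l : SympCt n, SmoothIsotopic k l → χ k = χ l := by
    intro k l hkl
    have h3 : (QuotientGroup.mk k : SympCt n ⧸ G0 n) = QuotientGroup.mk l := by
      rw [QuotientGroup.eq]
      exact (si_iff _ _).1 hkl
    exact congrArg c' h3
  refine ⟨χ, ?_, ?_⟩
  · intro s
    have h3 : χ ⁻¹' s = ⋃ k ∈ χ ⁻¹' s, {l | SmoothIsotopic k l} := by
      ext l
      simp only [mem_preimage, mem_iUnion, mem_ofPred_eq, exists_prop]
      constructor
      · intro hl
        exact ⟨l, hl, si_refl l⟩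
      · rintro ⟨k, hk, hkl⟩
        rwa [← hχ k l hkl]
    rw [h3]
    exact isOpen_biUnion fun k _ => isOpen_class k
  · intro h3
    apply hc
    have h4 : χ (f⁻¹ * g) = 1 := by
      rw [map_mul, map_inv, h3, inv_mul_cancel]
    exact h4

end Pool.Agent.Q191.SY
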