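import Pool.Agent.Q170.SC.Count
import Pool.Agent.Q196.SL.Main

/-!
# Smooth isotopy in `Symp_ct(ℝ^{2n})`: a congruence, whose classes are the path components
-/

set_option autoImplicit false

open scoped ContDiff
open Set Topology Function Q170.SC

namespace Pool.Agent.Q191.SY

variable {n : ℕ}

theorem map_smooth (f : SympCt n) : ContDiff ℝ ∞ f.map := Q196.SL.smooth_map f

theorem mul_map (f g : SympCt n) (z : E n) : (f * g).map z = f.map (g.map z) := rfl

theorem one_map (z : E n) : (1 : SympCt n).map z = z := rfl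

theorem ext_map {f g : SympCt n} (h : ∀ z, f.map z = g.map z) : f = g := Q196.SL.ext_map h

theorem inv_map_map (f : SympCt n) (z : E n) : f⁻¹.map (f.map z) = z :=
  f.perm.symm_apply_apply z

theorem map_inv_map (f : SympCt n) (z : E n) : f.map (f⁻¹.map z) = z :=
  f.perm.apply_symm_apply z

theorem si_refl (f : SympCt n) : SmoothIsotopic f f := by
  obtain ⟨K, hK, h⟩ := f.2.2
  exact ⟨K, hK, fun _ => f, (map_smooth f).comp contDiff_snd, fun _ => h, rfl, rfl⟩

theorem si_symm {f g : SympCt n} (h : SmoothIsotopic f g) : SmoothIsotopic g f := by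
  obtain ⟨K, hK, Φ, h1, h2, h3, h4⟩ := h
  refine ⟨K, hK, fun t => Φ (1 - t), ?_, fun t => h2 _, by simpa using h4, by simpa using h3⟩
  exact h1.comp ((contDiff_const.sub contDiff_fst).prodMk contDiff_snd)

theorem si_mul {f g f' g' : SympCt n} (h : SmoothIsotopic f g) (h' : SmoothIsotopic f' g') :
    SmoothIsotopic (f * f') (g * g') := by
  obtain ⟨K, hK, Φ, h1, h2, h3, h4⟩ := h
  obtain ⟨L, hL, Ψ, k1, k2, k3, k4⟩ := h'
  refine ⟨K ∪ L, hK.union hL, fun t => Φ t * Ψ t, ?_, fun t => (h2 t).mul (k2 t), ?_, ?_⟩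
  · exact h1.comp (contDiff_fst.prodMk k1)
  · show Φ 0 * Ψ 0 = _
    rw [h3, k3]
  · show Φ 1 * Ψ 1 = _
    rw [h4, k4]

theorem si_trans {f g h : SympCt n} (h1 : SmoothIsotopic f g) (h2 : SmoothIsotopic g h) :
    SmoothIsotopic f h := by
  have h3 := si_mul (si_mul h1 (si_refl g⁻¹)) h2
  rwa [inv_mul_cancel_right, mul_inv_cancel, one_mul] at h3

theorem si_inv {f g : SympCt n} (h : SmoothIsotopic f g) : SmoothIsotopic f⁻¹ g⁻¹ := by
  have h3 := si_mul (si_mul (si_refl f⁻¹) (si_symm h)) (si_refl g⁻¹)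
  rwa [mul_inv_cancel_right, inv_mul_cancel, one_mul] at h3

/-! ### The classes are open -/

/-- the derivative, as a continuous function on `G_K` -/
noncomputable def der {K : Set (E n)} (φ : SympK n K) : C(E n, E n →L[ℝ] E n) :=
  ⟨fderiv ℝ φ.incl.map, φ.1.2.1.continuous_fderiv⟩

theorem continuous_der (K : Set (E n)) : Continuous (der : SympK n K → _) := by
  have h1 : Continuous (fun (φ : SympK n K) (k : ℕ) => φ.incl.jet k) := continuous_induced_dom
  have h2 : Continuous (fun φ : SympK n K => φ.incl.jet 1) := (continuous_apply 1).comp h1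
  let c : C(ContinuousMultilinearMap ℝ (fun _ : Fin 1 => E n) (E n), E n →L[ℝ] E n) :=
    ⟨continuousMultilinearCurryFin1 ℝ (E n) (E n), LinearIsometryEquiv.continuous _⟩
  have h3 : (der : SympK n K → _) = fun φ => c.comp (φ.incl.jet 1) := by
    funext φ
    refine ContinuousMap.ext fun z => ?_
    refine ContinuousLinearMap.ext fun u => ?_
    show fderiv ℝ φ.incl.map z u = (iteratedFDeriv ℝ 1 φ.incl.map z) (Fin.snoc 0 u)
    rw [iteratedFDeriv_one_apply]
    rfl
  rw [h3]
  exact (ContinuousMap.continuous_postcomp c).comp h2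

theorem isOpen_class (f : SympCt n) : IsOpen {g | SmoothIsotopic f g} := by
  rw [isOpen_iSup_iff]
  rintro ⟨K, hK⟩
  rw [isOpen_coinduced, isOpen_iff_mem_nhds]
  intro φ (hφ : SmoothIsotopic f φ.incl)
  obtain ⟨C, hC0, hC⟩ := exists_bound hK φ.1.2.1.inv (SuppIn.inv φ.2)
  let δ : ℝ := 1 / (4 * (C + 1))
  have hδ : 0 < δ := by positivity
  have hδC : δ * C ≤ 1 / 4 := by
    show 1 / (4 * (C + 1)) * C ≤ 1 / 4
    rw [div_mul_eq_mul_div, div_le_div_iff₀ (by positivity) (by norm_num)]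
    linarith
  let U : Set C(E n, E n →L[ℝ] E n) :=
    (fun F => F - der φ) ⁻¹' {G | MapsTo G K (Metric.ball 0 δ)}
  have hU : IsOpen U :=
    (ContinuousMap.isOpen_setOfPred_mapsTo hK Metric.isOpen_ball).preimage
      (continuous_id.sub continuous_const)
  have hne : φ ∈ der ⁻¹' U := by
    intro z _
    show der φ z - der φ z ∈ Metric.ball 0 δ
    rw [sub_self]
    exact Metric.mem_ball_self hδ
  refine Filter.mem_of_superset ((hU.preimage (continuous_der K)).mem_nhds hne) ?_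
  intro s hs
  show SmoothIsotopic f s.incl
  refine si_trans hφ (Q196.SL.isotopic_half s.incl φ.incl ?_)
  intro t ht0 ht1 z u hu
  have hclose : ‖fderiv ℝ s.incl.map z - fderiv ℝ φ.incl.map z‖ ≤ δ := by
    by_cases hz : z ∈ K
    · have h1 : der s z - der φ z ∈ Metric.ball 0 δ := hs hz
      rw [mem_ball_zero_iff] at h1
      exact h1.le
    · have h1 : fderiv ℝ s.incl.map z = ContinuousLinearMap.id ℝ (E n) :=
        fderiv_eq_id_of_suppIn hK s.2 hz
      have h2 : fderiv ℝ φ.incl.map z = ContinuousLinearMap.id ℝ (E n) :=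
        fderiv_eq_id_of_suppIn hK φ.2 hz
      rw [h1, h2, sub_self, norm_zero]
      exact hδ.le
  have d1 : HasFDerivAt s.incl.map (fderiv ℝ s.incl.map z) z := Q196.SL.hasD _ z
  have d2 : HasFDerivAt φ.incl.map (fderiv ℝ φ.incl.map z) z := Q196.SL.hasD _ z
  have d3 : fderiv ℝ (fun z => (1 - t) • φ.incl.map z + t • s.incl.map z) z =
      (1 - t) • fderiv ℝ φ.incl.map z + t • fderiv ℝ s.incl.map z :=
    ((d2.const_smul (1 - t)).add (d1.const_smul t)).fderiv
  rw [d3] at hu
  -- the inverse of the derivative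
  have hinv : ‖u‖ ≤ C * ‖fderiv ℝ φ.incl.map z u‖ := by
    have e1 : HasFDerivAt φ.incl⁻¹.map (fderiv ℝ φ.incl⁻¹.map (φ.incl.map z)) (φ.incl.map z) :=
      Q196.SL.hasD _ _
    have e2 : (fderiv ℝ φ.incl⁻¹.map (φ.incl.map z)).comp (fderiv ℝ φ.incl.map z) =
        ContinuousLinearMap.id ℝ (E n) := by
      have e3 := (e1.comp z d2).fderiv
      have e4 : φ.incl⁻¹.map ∘ φ.incl.map = id := funext fun w => inv_map_map _ w
      rw [e4, fderiv_id] at e3
      exact e3.symm
    have e5 : fderiv ℝ φ.incl⁻¹.map (φ.incl.map z) (fderiv ℝ φ.incl.map z u) = u :=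
      DFunLike.congr_fun e2 u
    calc ‖u‖ = ‖fderiv ℝ φ.incl⁻¹.map (φ.incl.map z) (fderiv ℝ φ.incl.map z u)‖ := by rw [e5]
      _ ≤ ‖fderiv ℝ φ.incl⁻¹.map (φ.incl.map z)‖ * ‖fderiv ℝ φ.incl.map z u‖ :=
          ContinuousLinearMap.le_opNorm _ _
      _ ≤ C * ‖fderiv ℝ φ.incl.map z u‖ := by
          gcongr
          exact hC _
  have hsum : fderiv ℝ φ.incl.map z u =
      -(t • (fderiv ℝ s.incl.map z - fderiv ℝ φ.incl.map z) u) := by
    have h1 : (1 - t) • fderiv ℝ φ.incl.map z u + t • fderiv ℝ s.incl.map z u = 0 := hu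
    rw [sub_apply, ← sub_eq_zero, ← h1]
    module
  have h5 : ‖fderiv ℝ φ.incl.map z u‖ ≤ δ * ‖u‖ := by
    rw [hsum, norm_neg, norm_smul, Real.norm_eq_abs, abs_of_nonneg ht0]
    have h6 : ‖(fderiv ℝ s.incl.map z - fderiv ℝ φ.incl.map z) u‖ ≤ δ * ‖u‖ :=
      (ContinuousLinearMap.le_opNorm _ _).trans (by gcongr)
    nlinarith [norm_nonneg ((fderiv ℝ s.incl.map z - fderiv ℝ φ.incl.map z) u)]
  have h7 : ‖u‖ ≤ 1 / 4 * ‖u‖ := by
    calc ‖u‖ ≤ C * (δ * ‖u‖) := hinv.trans (by gcongr)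
      _ = (δ * C) * ‖u‖ := by ring
      _ ≤ 1 / 4 * ‖u‖ := by gcongr
  have h8 : ‖u‖ = 0 := by linarith [norm_nonneg u]
  exact norm_eq_zero.1 h8

theorem isClopen_class (f : SympCt n) : IsClopen {g | SmoothIsotopic f g} := by
  refine ⟨?_, isOpen_class f⟩
  rw [← isOpen_compl_iff]
  have h : {g | SmoothIsotopic f g}ᶜ = ⋃ g ∈ {g | SmoothIsotopic f g}ᶜ, {h | SmoothIsotopic g h} := by
    ext k
    simp only [mem_compl_iff, mem_ofPred_eq, mem_iUnion, exists_prop]
    constructor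
    · intro hk
      exact ⟨k, hk, si_refl k⟩
    · rintro ⟨g, hg, hgk⟩ hfk
      exact hg (si_trans hfk (si_symm hgk))
  rw [h]
  exact isOpen_biUnion fun g _ => isOpen_class g

/-- The path components of `G` are the smooth isotopy classes. -/
theorem joined_iff (f g : SympCt n) : Joined f g ↔ SmoothIsotopic f g := by
  refine ⟨fun h => ?_, fun h => h.joined⟩
  have h1 : IsPreconnected (range h.somePath) := isPreconnected_range h.somePath.continuous
  have h2 : (range h.somePath ∩ {g | SmoothIsotopic f g}).Nonempty :=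
    ⟨f, ⟨0, h.somePath.source⟩, si_refl f⟩
  have h3 := h1.subset_isClopen (isClopen_class f) h2
  exact h3 ⟨1, h.somePath.target⟩

end Pool.Agent.Q191.SY
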