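import Pool.Agent.Q191.SY.Grp

/-!
# Conjugation by similarities
-/

set_option autoImplicit false

open scoped ContDiff
open Set Topology Function Q170.SC

namespace Pool.Agent.Q191.SY

variable {n : ℕ}

theorem omega_smul (s : ℝ) (u v : E n) : omega (s • u) (s • v) = s * s * omega u v := by
  rw [Q196.SL.omega_smul_left, Q196.SL.omega_smul_right, mul_assoc]

/-- the similarity `z ↦ s z + b`, `s = exp r` -/
noncomputable def sim (r : ℝ) (b : E n) : Equiv.Perm (E n) where
  toFun z := Real.exp r • z + b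
  invFun z := Real.exp (-r) • (z - b)
  left_inv z := by
    show Real.exp (-r) • (Real.exp r • z + b - b) = z
    rw [add_sub_cancel_right, smul_smul, ← Real.exp_add, neg_add_cancel, Real.exp_zero, one_smul]
  right_inv z := by
    show Real.exp r • (Real.exp (-r) • (z - b)) + b = z
    rw [smul_smul, ← Real.exp_add, add_neg_cancel, Real.exp_zero, one_smul, sub_add_cancel]

theorem sim_apply (r : ℝ) (b z : E n) : sim r b z = Real.exp r • z + b := rfl

theorem sim_symm (r : ℝ) (b z : E n) : (sim r b).symm z = Real.exp (-r) • (z - b) := rfl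

/-- the conjugate of a bijection by a similarity -/
noncomputable def cj (r : ℝ) (b : E n) (φ : Equiv.Perm (E n)) : Equiv.Perm (E n) :=
  sim r b * φ * (sim r b)⁻¹

theorem cj_apply (r : ℝ) (b : E n) (φ : Equiv.Perm (E n)) (z : E n) :
    cj r b φ z = Real.exp r • φ (Real.exp (-r) • (z - b)) + b := rfl

theorem cj_symm (r : ℝ) (b : E n) (φ : Equiv.Perm (E n)) : (cj r b φ)⁻¹ = cj r b φ⁻¹ := by
  unfold cj
  group

theorem cj_deriv (r : ℝ) (b : E n) (φ : Equiv.Perm (E n)) (hφ : ContDiff ℝ ∞ φ) (z : E n) :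
    HasFDerivAt (cj r b φ) (fderiv ℝ φ (Real.exp (-r) • (z - b))) z := by
  have h1 : HasFDerivAt (fun z : E n => Real.exp (-r) • (z - b))
      (Real.exp (-r) • ContinuousLinearMap.id ℝ (E n)) z :=
    ((hasFDerivAt_id z).sub_const b).const_smul (Real.exp (-r))
  have h2 : HasFDerivAt φ (fderiv ℝ φ (Real.exp (-r) • (z - b))) (Real.exp (-r) • (z - b)) :=
    (hφ.differentiable (by simp) _).hasFDerivAt
  have h3 := ((h2.comp z h1).const_smul (Real.exp r)).add_const b
  have h4 : Real.exp r • (fderiv ℝ φ (Real.exp (-r) • (z - b))).comp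
      (Real.exp (-r) • ContinuousLinearMap.id ℝ (E n)) =
      fderiv ℝ φ (Real.exp (-r) • (z - b)) := by
    refine ContinuousLinearMap.ext fun u => ?_
    simp only [ContinuousLinearMap.smul_apply, ContinuousLinearMap.comp_apply,
      ContinuousLinearMap.id_apply, map_smul]
    rw [smul_smul, ← Real.exp_add, add_neg_cancel, Real.exp_zero, one_smul]
  rw [h4] at h3
  exact h3

theorem cj_smooth (r : ℝ) (b : E n) (φ : Equiv.Perm (E n)) (hφ : ContDiff ℝ ∞ φ) :
    ContDiff ℝ ∞ (cj r b φ) := by
  have h : (cj r b φ : E n → E n) = fun z => Real.exp r • φ (Real.exp (-r) • (z - b)) + b := rfl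
  rw [h]
  exact ((hφ.comp ((contDiff_id.sub contDiff_const).const_smul _)).const_smul _).add
    contDiff_const

theorem cj_symp (r : ℝ) (b : E n) (φ : Equiv.Perm (E n)) (hφ : IsSymp φ) : IsSymp (cj r b φ) where
  smooth := cj_smooth r b φ hφ.smooth
  smooth_symm := by
    have h : (cj r b φ).symm = cj r b φ⁻¹ := cj_symm r b φ
    rw [h]
    exact cj_smooth r b _ hφ.smooth_symm
  form z u v := by
    rw [(cj_deriv r b φ hφ.smooth z).fderiv]
    exact hφ.form _ u v

/-- the conjugate is the identity off the image of the ball -/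
theorem cj_supp (r : ℝ) (b : E n) (φ : Equiv.Perm (E n)) (R : ℝ)
    (h : SuppIn (Metric.closedBall 0 R) φ) :
    SuppIn (Metric.closedBall b (Real.exp r * R)) (cj r b φ) := by
  intro z hz
  have h1 : Real.exp (-r) • (z - b) ∉ Metric.closedBall (0 : E n) R := by
    intro h2
    apply hz
    rw [mem_closedBall_zero_iff, norm_smul, Real.norm_eq_abs, abs_of_pos (Real.exp_pos _)] at h2
    rw [Metric.mem_closedBall, dist_eq_norm]
    calc ‖z - b‖ = Real.exp r * (Real.exp (-r) * ‖z - b‖) := by
          rw [← mul_assoc, ← Real.exp_add, add_neg_cancel, Real.exp_zero, one_mul]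
      _ ≤ Real.exp r * R := by gcongr
  rw [cj_apply, h _ h1, smul_smul, ← Real.exp_add, add_neg_cancel, Real.exp_zero, one_smul,
    sub_add_cancel]

theorem exists_ball (f : SympCt n) : ∃ R : ℝ, 0 < R ∧ SuppIn (Metric.closedBall 0 R) f.perm := by
  obtain ⟨K, hK, h⟩ := f.2.2
  obtain ⟨R, hR⟩ := hK.isBounded.subset_closedBall 0
  refine ⟨max R 1, by positivity, fun z hz => h z fun hzK => hz ?_⟩
  exact Metric.closedBall_subset_closedBall (le_max_left _ _) (hR hzK)

/-- the conjugate of an element of `G` by a similarity -/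
noncomputable def con (r : ℝ) (b : E n) (f : SympCt n) : SympCt n :=
  ⟨cj r b f.perm, cj_symp r b f.perm f.2.1, by
    obtain ⟨R, _, h⟩ := exists_ball f
    exact ⟨_, isCompact_closedBall _ _, cj_supp r b f.perm R h⟩⟩

theorem con_map (r : ℝ) (b : E n) (f : SympCt n) (z : E n) :
    (con r b f).map z = Real.exp r • f.map (Real.exp (-r) • (z - b)) + b := rfl

theorem con_deriv (r : ℝ) (b : E n) (f : SympCt n) (z : E n) :
    fderiv ℝ (con r b f).map z = fderiv ℝ f.map (Real.exp (-r) • (z - b)) :=
  (cj_deriv r b f.perm f.2.1.smooth z).fderiv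

theorem con_supp (r : ℝ) (b : E n) (f : SympCt n) (R : ℝ)
    (h : SuppIn (Metric.closedBall 0 R) f.perm) :
    SuppIn (Metric.closedBall b (Real.exp r * R)) (con r b f).perm := cj_supp r b f.perm R h

/-- Every element is smoothly isotopic to its conjugates by similarities. -/
theorem si_con (r : ℝ) (b : E n) (f : SympCt n) : SmoothIsotopic f (con r b f) := by
  obtain ⟨R, hR0, hR⟩ := exists_ball f
  let σ : ℝ → ℝ := Real.smoothTransition
  have hσ : ContDiff ℝ ∞ σ := Real.smoothTransition.contDiff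
  refine ⟨Metric.closedBall 0 (‖b‖ + Real.exp |r| * R), isCompact_closedBall _ _,
    fun t => con (σ t * r) (σ t • b) f, ?_, ?_, ?_, ?_⟩
  · have h : (fun p : ℝ × E n => (con (σ p.1 * r) (σ p.1 • b) f).map p.2) =
        fun p => Real.exp (σ p.1 * r) • f.map (Real.exp (-(σ p.1 * r)) • (p.2 - σ p.1 • b)) +
          σ p.1 • b := rfl
    rw [h]
    have h1 : ContDiff ℝ ∞ (fun p : ℝ × E n => σ p.1) := hσ.comp contDiff_fst
    have h2 : ContDiff ℝ ∞ (fun p : ℝ × E n => σ p.1 • b) := h1.smul contDiff_const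
    have h3 : ContDiff ℝ ∞ (fun p : ℝ × E n => Real.exp (σ p.1 * r)) :=
      Real.contDiff_exp.comp (h1.mul contDiff_const)
    have h4 : ContDiff ℝ ∞ (fun p : ℝ × E n => Real.exp (-(σ p.1 * r))) :=
      Real.contDiff_exp.comp (h1.mul contDiff_const).neg
    exact (h3.smul ((map_smooth f).comp (h4.smul (contDiff_snd.sub h2)))).add h2
  · intro t z hz
    refine con_supp _ _ f R hR z fun h => hz ?_
    rw [Metric.mem_closedBall, dist_eq_norm] at h
    rw [mem_closedBall_zero_iff]
    have h0 : 0 ≤ σ t := Real.smoothTransition.nonneg t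
    have h1 : σ t ≤ 1 := Real.smoothTransition.le_one t
    have h2 : ‖z‖ ≤ ‖z - σ t • b‖ + ‖σ t • b‖ := by
      calc ‖z‖ = ‖(z - σ t • b) + σ t • b‖ := by rw [sub_add_cancel]
        _ ≤ _ := norm_add_le _ _
    have h3 : ‖σ t • b‖ ≤ ‖b‖ := by
      rw [norm_smul, Real.norm_eq_abs, abs_of_nonneg h0]
      nlinarith [norm_nonneg b]
    have h4 : Real.exp (σ t * r) ≤ Real.exp |r| := by
      apply Real.exp_le_exp.2
      calc σ t * r ≤ σ t * |r| := mul_le_mul_of_nonneg_left (le_abs_self r) h0
        _ ≤ 1 * |r| := mul_le_mul_of_nonneg_right h1 (abs_nonneg r)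
        _ = |r| := one_mul _
    have h5 : Real.exp (σ t * r) * R ≤ Real.exp |r| * R :=
      mul_le_mul_of_nonneg_right h4 hR0.le
    linarith
  · refine ext_map fun z => ?_
    rw [con_map]
    have h : σ 0 = 0 := Real.smoothTransition.zero
    rw [h]
    simp
  · have h : σ 1 = 1 := Real.smoothTransition.one
    show con (σ 1 * r) (σ 1 • b) f = con r b f
    rw [h, one_mul, one_smul]

/-- Every element is smoothly isotopic to one which is supported in a given ball, and whose
derivatives are derivatives of the given element. -/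
theorem exists_in_ball (f : SympCt n) (b : E n) {ρ : ℝ} (hρ : 0 < ρ) :
    ∃ g : SympCt n, SmoothIsotopic f g ∧ SuppIn (Metric.closedBall b ρ) g.perm ∧
      ∀ z, ∃ w, fderiv ℝ g.map z = fderiv ℝ f.map w := by
  obtain ⟨R, hR0, hR⟩ := exists_ball f
  have h0 : 0 < ρ / R := by positivity
  refine ⟨con (Real.log (ρ / R)) b f, si_con _ _ _, ?_, fun z => ⟨_, con_deriv _ _ _ _⟩⟩
  have h1 := con_supp (Real.log (ρ / R)) b f R hR
  rwa [Real.exp_log h0, div_mul_cancel₀ _ hR0.ne'] at h1

/-- an element maps its support to itself -/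
theorem map_mem {K : Set (E n)} {f : SympCt n} (h : SuppIn K f.perm) {z : E n} (hz : z ∈ K) :
    f.map z ∈ K := by
  by_contra h1
  have h2 : f.map (f.map z) = f.map z := h _ h1
  have h3 : f.map z = z := f.perm.injective h2
  rw [h3] at h1
  exact h1 hz

/-- Elements with disjoint supports commute. -/
theorem comm_of_disjoint {K L : Set (E n)} (hKL : Disjoint K L) {f g : SympCt n}
    (hf : SuppIn K f.perm) (hg : SuppIn L g.perm) : f * g = g * f := by
  refine ext_map fun z => ?_
  rw [mul_map, mul_map]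
  by_cases h1 : z ∈ K
  · have h2 : z ∉ L := fun h => Set.disjoint_left.1 hKL h1 h
    have h3 : f.map z ∉ L := fun h => Set.disjoint_left.1 hKL (map_mem hf h1) h
    have h4 : g.map z = z := hg z h2
    have h5 : g.map (f.map z) = f.map z := hg _ h3
    rw [h4, h5]
  · have h2 : f.map z = z := hf z h1
    rw [h2]
    by_cases h3 : z ∈ L
    · exact hf _ fun h => Set.disjoint_left.1 hKL h (map_mem hg h3)
    · have h4 : g.map z = z := hg z h3
      rw [h4, h2]

/-- two disjoint balls in a ball -/
theorem exists_balls (hn : 1 ≤ n) (b : E n) {ρ : ℝ} (hρ : 0 < ρ) :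
    ∃ c : E n, Disjoint (Metric.closedBall b (ρ / 4)) (Metric.closedBall c (ρ / 4)) ∧
      Metric.closedBall c (ρ / 4) ⊆ Metric.closedBall b ρ := by
  obtain ⟨e, he⟩ : ∃ e : E n, ‖e‖ = 1 := by
    have : Nonempty (Fin n) := ⟨⟨0, hn⟩⟩
    have : Nontrivial (E n) := inferInstance
    exact exists_norm_eq (E n) zero_le_one
  refine ⟨b + (3 / 4 * ρ) • e, ?_, ?_⟩
  · refine Metric.closedBall_disjoint_closedBall ?_
    rw [dist_self_add_right, norm_smul, he, Real.norm_eq_abs, abs_of_pos (by positivity)]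
    linarith
  · refine Metric.closedBall_subset_closedBall' ?_
    rw [dist_self_add_left, norm_smul, he, Real.norm_eq_abs, abs_of_pos (by positivity)]
    linarith

end Pool.Agent.Q191.SY
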